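import Pool.Agent.TH574.StarDec.Basic

set_option autoImplicit false

namespace Pool.Agent.Results.MP_1c8ed6_co.StarCase

/-!
The Barát–Gerbner–Thomassé conjecture for all stars: every `m`-tree-connected simple graph whose
number of edges is divisible by `m` has an edge-decomposition into stars with `m` edges.
-/

/-- `T` is a star with centre `c`: two distinct vertices are adjacent iff one of them is `c`. -/
def IsStarWithCentre {W : Type} (T : SimpleGraph W) (c : W) : Prop :=
  ∀ a b, T.Adj a b ↔ a ≠ b ∧ (a = c ∨ b = c)

/-- Let `T` be a finite star, and let `G` be a finite simple graph which contains `|E(T)|`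
pairwise edge-disjoint connected spanning subgraphs (equivalently, `|E(T)|` pairwise edge-disjoint
spanning trees) and whose number of edges is divisible by `|E(T)|`. Then the edges of `G` split
into edge-disjoint subgraphs each isomorphic to `T`. -/
theorem result {V : Type} [Fintype V] [DecidableEq V] (G : SimpleGraph V) [DecidableRel G.Adj]
    {W : Type} [Fintype W] [DecidableEq W] (T : SimpleGraph W) [DecidableRel T.Adj]
    (c : W) (hT : IsStarWithCentre T c)
    (hF : ∃ F : Fin T.edgeFinset.card → SimpleGraph V,
      (∀ i, F i ≤ G ∧ (F i).Connected) ∧ Pairwise (fun i j => Disjoint (F i) (F j)))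
    (hdvd : T.edgeFinset.card ∣ G.edgeFinset.card) :
    ∃ (n : ℕ) (H : Fin n → G.Subgraph),
      (∀ i, Nonempty (T ≃g (H i).coe)) ∧
      Pairwise (fun i j => Disjoint (H i).edgeSet (H j).edgeSet) ∧
      (∀ e ∈ G.edgeSet, ∃ i, e ∈ (H i).edgeSet) :=
  Pool.Agent.TH574.StarDec.exists_star_decomposition G T c hT hF hdvd

end Pool.Agent.Results.MP_1c8ed6_co.StarCase
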